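import Mathlib

/-! Tate classes in an exterior algebra: reduction to multiplicative relations. -/

namespace Pool.Agent.P.MP_7b53ad_ag

open TensorProduct

section Abstract
variable {Ω B : Type*} [Field Ω] [Ring B] [Algebra Ω B]

lemma mem_span_eigen (f : Module.End Ω B) (S : Set B) (hS : ∀ s ∈ S, ∃ μ : Ω, f s = μ • s)
    {γ : B} (hγ : γ ∈ Submodule.span Ω S) {μ : Ω} (h : f γ = μ • γ) :
    γ ∈ Submodule.span Ω {s | s ∈ S ∧ f s = μ • s} := by
  have h1 : Submodule.span Ω S ≤ Submodule.span Ω {s | s ∈ S ∧ f s = μ • s} ⊔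
      ⨆ ν, ⨆ (_ : ν ≠ μ), f.eigenspace ν := by
    rw [Submodule.span_le]
    intro s hs
    obtain ⟨ν, hν⟩ := hS s hs
    by_cases e : ν = μ
    · exact Submodule.mem_sup_left (Submodule.subset_span ⟨hs, e ▸ hν⟩)
    · exact Submodule.mem_sup_right (Submodule.mem_iSup_of_mem ν
        (Submodule.mem_iSup_of_mem e (Module.End.mem_eigenspace_iff.2 hν)))
  obtain ⟨x, hx, y, hy, rfl⟩ := Submodule.mem_sup.1 (h1 hγ)
  have h2 : Submodule.span Ω {s | s ∈ S ∧ f s = μ • s} ≤ f.eigenspace μ := by
    rw [Submodule.span_le]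
    intro s hs
    exact Module.End.mem_eigenspace_iff.2 hs.2
  have h3 : y ∈ f.eigenspace μ := by
    have := (f.eigenspace μ).sub_mem (Module.End.mem_eigenspace_iff.2 h) (h2 hx)
    simpa using this
  have h4 : y = 0 := Submodule.disjoint_def.1 (f.eigenspaces_iSupIndep μ) y h3 hy
  simpa [h4] using hx

lemma prod_mul_comm_sign (U : Submodule Ω B) (hU : ∀ x ∈ U, ∀ y ∈ U, x * y = -(y * x))
    {y : B} (hy : y ∈ U) (s : List B) (hs : ∀ x ∈ s, x ∈ U) :
    s.prod * y = (-1 : Ω) ^ s.length • (y * s.prod) := by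
  induction s with
  | nil => simp
  | cons x s ih =>
    rw [List.prod_cons, mul_assoc, ih fun z hz => hs z (List.mem_cons_of_mem _ hz),
      mul_smul_comm, ← mul_assoc, hU x (hs x List.mem_cons_self) y hy, List.length_cons, pow_succ,
      mul_smul, neg_mul, mul_assoc]
    simp

variable {R : Type*} [DecidableEq R]

lemma pair_up (U : Submodule Ω B) (hU : ∀ x ∈ U, ∀ y ∈ U, x * y = -(y * x)) (T : B →ₐ[Ω] B)
    (ε : R → Ω) (c : R → R) (hc : ∀ a, c (c a) = a) (hc' : ∀ a, c a ≠ a) (q : Ω)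
    (hq : ∀ a, ε a * ε (c a) = q) (W : Submodule Ω B)
    (hW : ∀ δ ∈ U ^ 2, T δ = q • δ → δ ∈ W) (i : ℕ) :
    ∀ l : List (R × B), l.length = 2 * i → (∀ p ∈ l, p.2 ∈ U ∧ T p.2 = ε p.1 • p.2) →
      (∀ a, (l.map Prod.fst).count a = (l.map Prod.fst).count (c a)) →
      (l.map Prod.snd).prod ∈ W ^ i := by
  induction i with
  | zero =>
    intro l hl _ _
    rw [List.length_eq_zero_iff.1 hl]
    simpa using Submodule.one_le.1 (le_refl (1 : Submodule Ω B))
  | succ i ih =>
    intro l hl hp hcount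
    obtain ⟨⟨a, x⟩, l', rfl⟩ : ∃ p l', l = p :: l' := by
      cases l with
      | nil => simp at hl
      | cons p l' => exact ⟨p, l', rfl⟩
    have h1 : c a ∈ l'.map Prod.fst := by
      have := hcount a
      simp only [List.map_cons, List.count_cons_self, List.count_cons_of_ne (hc' a).symm] at this
      exact List.count_pos_iff.1 (by omega)
    obtain ⟨⟨b, y⟩, hb, hba⟩ := List.mem_map.1 h1
    simp only at hba
    subst hba
    obtain ⟨s, t, rfl⟩ := List.append_of_mem hb
    have hx := hp (a, x) List.mem_cons_self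
    have hy := hp (c a, y) (by simp)
    have hst := ih (s ++ t) (by simp at hl ⊢; omega)
      (fun p hp' => hp p (by
        rcases List.mem_append.1 hp' with h | h
        · simp [h]
        · simp [h]))
      (fun b => by
        have := hcount b
        simp only [List.map_cons, List.map_append, List.count_cons, List.count_append,
          beq_iff_eq] at this ⊢
        have e1 : (a = c b) ↔ (c a = b) := ⟨fun h => by rw [h, hc], fun h => by rw [← h, hc]⟩
        have e2 : (c a = c b) ↔ (a = b) :=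
          ⟨fun h => by rw [← hc a, h, hc], fun h => by rw [h]⟩
        simp only [e1, e2] at this
        omega)
    have hs := prod_mul_comm_sign U hU hy.1 (s.map Prod.snd) (fun z hz => by
      obtain ⟨p, hp', rfl⟩ := List.mem_map.1 hz
      exact (hp p (by simp [hp'])).1)
    have hxy : x * y ∈ W := by
      apply hW
      · rw [pow_two]; exact Submodule.mul_mem_mul hx.1 hy.1
      · rw [map_mul, hx.2, hy.2, smul_mul_smul_comm, hq]
    simp only [List.map_cons, List.map_append, List.prod_cons, List.prod_append] at hst ⊢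
    rw [← mul_assoc (s.map Prod.snd).prod, hs, smul_mul_assoc, mul_smul_comm, pow_succ']
    apply Submodule.smul_mem
    rw [mul_assoc y, ← mul_assoc x]
    exact Submodule.mul_mem_mul hxy hst

omit [DecidableEq R] in
lemma pow_le_span_mon (U : Submodule Ω B) (T : B →ₐ[Ω] B) (ε : R → Ω)
    (hspan : U ≤ Submodule.span Ω {x | x ∈ U ∧ ∃ a, T x = ε a • x}) (d : ℕ) :
    U ^ d ≤ Submodule.span Ω {y | ∃ l : List (R × B), l.length = d ∧
      (∀ p ∈ l, p.2 ∈ U ∧ T p.2 = ε p.1 • p.2) ∧ y = (l.map Prod.snd).prod} := by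
  induction d with
  | zero =>
    rw [pow_zero, Submodule.one_le]
    exact Submodule.subset_span ⟨[], rfl, by simp, by simp⟩
  | succ d ih =>
    rw [pow_succ']
    refine (mul_le_mul' hspan ih).trans ?_
    rw [Submodule.span_mul_span]
    apply Submodule.span_mono
    rintro _ ⟨x, ⟨hx, a, ha⟩, _, ⟨l, hl, hp, rfl⟩, rfl⟩
    refine ⟨(a, x) :: l, by simp [hl], ?_, by simp⟩
    intro p hp'
    rcases List.mem_cons.1 hp' with rfl | h
    · exact ⟨hx, ha⟩
    · exact hp p h

omit [DecidableEq R] in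
lemma map_mon (T : B →ₐ[Ω] B) (ε : R → Ω) (l : List (R × B))
    (hp : ∀ p ∈ l, T p.2 = ε p.1 • p.2) :
    T (l.map Prod.snd).prod = ((l.map Prod.fst).map ε).prod • (l.map Prod.snd).prod := by
  induction l with
  | nil => simp
  | cons p l ih =>
    simp only [List.map_cons, List.prod_cons, map_mul]
    rw [ih fun p hp' => hp p (List.mem_cons_of_mem _ hp'), hp p List.mem_cons_self,
      smul_mul_smul_comm]

lemma pow_eigen (f : Module.End Ω B) {y : B} {μ : Ω} (h : f y = μ • y) (n : ℕ) :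
    (f ^ n) y = μ ^ n • y := by
  induction n with
  | zero => simp
  | succ n ih => rw [pow_succ, Module.End.mul_apply, h, map_smul, ih, smul_smul, pow_succ']

theorem tate_closed (U : Submodule Ω B) (hU : ∀ x ∈ U, ∀ y ∈ U, x * y = -(y * x))
    (T : B →ₐ[Ω] B) (ε : R → Ω) (c : R → R) (hc : ∀ a, c (c a) = a) (hc' : ∀ a, c a ≠ a) (q : Ω)
    (hq : ∀ a, ε a * ε (c a) = q)
    (hspan : U ≤ Submodule.span Ω {x | x ∈ U ∧ ∃ a, T x = ε a • x}) (W : Submodule Ω B)
    (hW : ∀ δ ∈ U ^ 2, T δ = q • δ → δ ∈ W) (i n : ℕ)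
    (hrel : ∀ l : List R, l.length = 2 * i → (l.map ε).prod ^ n = q ^ (i * n) →
      ∀ a, l.count a = l.count (c a))
    {γ : B} (hγ : γ ∈ U ^ (2 * i)) (hT : (T.toLinearMap ^ n) γ = q ^ (i * n) • γ) :
    γ ∈ W ^ i := by
  have h1 := mem_span_eigen (T.toLinearMap ^ n) _ (by
    rintro _ ⟨l, _, hp, rfl⟩
    exact ⟨_, pow_eigen _ (map_mon T ε l fun p hp' => (hp p hp').2) n⟩)
    (pow_le_span_mon U T ε hspan (2 * i) hγ) hT
  refine (Submodule.span_le.2 ?_ : _ ≤ W ^ i) h1
  rintro _ ⟨⟨l, hl, hp, rfl⟩, h2⟩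
  by_cases h0 : (l.map Prod.snd).prod = 0
  · rw [h0]; exact Submodule.zero_mem _
  · rw [pow_eigen _ (map_mon T ε l fun p hp' => (hp p hp').2) n] at h2
    exact pair_up U hU T ε c hc hc' q hq W hW i l hl hp
      (hrel _ (by simpa using hl) (smul_left_injective Ω h0 h2))

end Abstract

section Descent
variable {E Ω A : Type*} [Field E] [Field Ω] [Algebra E Ω] [Ring A] [Algebra E A]

/-- contraction with a linear form on the coefficients -/
noncomputable def contr (φ : Ω →ₗ[E] E) : Ω ⊗[E] A →ₗ[E] A :=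
  (TensorProduct.lid E A).toLinearMap ∘ₗ LinearMap.rTensor A φ

lemma contr_tmul (φ : Ω →ₗ[E] E) (w : Ω) (a : A) : contr φ (w ⊗ₜ a) = φ w • a := by
  simp [contr]

lemma contr_mem (φ : Ω →ₗ[E] E) (W : Submodule E A) {δ : Ω ⊗[E] A} (h : δ ∈ W.baseChange Ω) :
    contr φ δ ∈ W := by
  obtain ⟨y, rfl⟩ := h
  induction y using TensorProduct.induction_on with
  | zero => simp
  | tmul w a => simpa [contr_tmul] using W.smul_mem _ a.2
  | add x y hx hy => simpa using W.add_mem hx hy

lemma mem_of_contr (W : Submodule E A) {δ : Ω ⊗[E] A} (h : ∀ φ : Ω →ₗ[E] E, contr φ δ ∈ W) :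
    δ ∈ W.baseChange Ω := by
  classical
  let b := Module.Basis.ofVectorSpace E Ω
  obtain ⟨c, rfl⟩ := TensorProduct.eq_repr_basis_left b δ
  refine Submodule.sum_mem _ fun j hj => Submodule.tmul_mem_baseChange_of_mem _ ?_
  have := h (b.coord j)
  rw [Finsupp.sum, map_sum, Finset.sum_eq_single j] at this
  · simpa [contr_tmul] using this
  · intro k _ hk
    simp [contr_tmul, hk]
  · intro hj'; exact absurd hj hj'

lemma baseChange_mul' (M N : Submodule E A) :
    (M * N).baseChange Ω = M.baseChange Ω * N.baseChange Ω := by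
  apply le_antisymm
  · rw [Submodule.baseChange_eq_span, Submodule.span_le]
    rintro _ ⟨x, hx, rfl⟩
    refine Submodule.mul_induction_on hx (fun m hm n hn => ?_) (fun x y hx hy => ?_)
    · have := Submodule.mul_mem_mul (Submodule.tmul_mem_baseChange_of_mem (1 : Ω) hm)
        (Submodule.tmul_mem_baseChange_of_mem (1 : Ω) hn)
      simpa using this
    · rw [map_add]; exact Submodule.add_mem _ hx hy
  · rw [Submodule.baseChange_eq_span Ω M, Submodule.baseChange_eq_span Ω N,
      Submodule.span_mul_span, Submodule.span_le]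
    rintro _ ⟨_, ⟨x, hx, rfl⟩, _, ⟨y, hy, rfl⟩, rfl⟩
    have := Submodule.tmul_mem_baseChange_of_mem (1 : Ω) (Submodule.mul_mem_mul hx hy)
    simpa using this

lemma baseChange_pow' (M : Submodule E A) (d : ℕ) :
    (M ^ d).baseChange Ω = M.baseChange Ω ^ d := by
  induction d with
  | zero =>
    simp only [pow_zero, Submodule.one_eq_span, Submodule.baseChange_span, Set.image_singleton]
    rfl
  | succ d ih => rw [pow_succ, pow_succ, baseChange_mul', ih]

end Descent

section Main
variable {E Ω V R : Type*} [Field E] [Field Ω] [Algebra E Ω] [AddCommGroup V] [Module E V]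
  [DecidableEq R]

theorem tate_ext (F : V →ₗ[E] V) (ε : R → Ω) (c : R → R) (hc : ∀ a, c (c a) = a)
    (hc' : ∀ a, c a ≠ a) (q : E) (hq : ∀ a, ε a * ε (c a) = algebraMap E Ω q)
    (hspan : ⊤ ≤ Submodule.span Ω {v : Ω ⊗[E] V | ∃ a, F.baseChange Ω v = ε a • v}) (i n : ℕ)
    (hrel : ∀ l : List R, l.length = 2 * i → (l.map ε).prod ^ n = algebraMap E Ω q ^ (i * n) →
      ∀ a, l.count a = l.count (c a))
    (W : Submodule E (ExteriorAlgebra E V))
    (hW : ∀ δ ∈ ⋀[E]^2 V, ExteriorAlgebra.map F δ = q • δ → δ ∈ W)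
    {γ : ExteriorAlgebra E V} (hγ : γ ∈ ⋀[E]^(2 * i) V)
    (hT : ((ExteriorAlgebra.map F).toLinearMap ^ n) γ = q ^ (i * n) • γ) : γ ∈ W ^ i := by
  let T : Ω ⊗[E] ExteriorAlgebra E V →ₐ[Ω] Ω ⊗[E] ExteriorAlgebra E V :=
    Algebra.TensorProduct.map (AlgHom.id Ω Ω) (ExteriorAlgebra.map F)
  let ι' : Ω ⊗[E] V →ₗ[Ω] Ω ⊗[E] ExteriorAlgebra E V := (ExteriorAlgebra.ι E).baseChange Ω
  have hU : (LinearMap.range (ExteriorAlgebra.ι E (M := V))).baseChange Ω =
      LinearMap.range ι' := by
    apply le_antisymm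
    · rw [Submodule.baseChange_eq_span, Submodule.span_le]
      rintro _ ⟨_, ⟨x, rfl⟩, rfl⟩
      exact ⟨1 ⊗ₜ x, by simp [ι']⟩
    · rintro _ ⟨y, rfl⟩
      induction y using TensorProduct.induction_on with
      | zero => simp
      | tmul w a => exact Submodule.tmul_mem_baseChange_of_mem _ ⟨a, rfl⟩
      | add x y hx hy => rw [map_add]; exact Submodule.add_mem _ hx hy
  have hTι (v : Ω ⊗[E] V) : T (ι' v) = ι' (F.baseChange Ω v) := by
    induction v using TensorProduct.induction_on with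
    | zero => simp
    | tmul w a => simp [T, ι']
    | add x y hx hy => simp only [map_add, hx, hy]
  have hanti : ∀ x ∈ LinearMap.range ι', ∀ y ∈ LinearMap.range ι', x * y = -(y * x) := by
    rintro _ ⟨x, rfl⟩ _ ⟨y, rfl⟩
    induction x using TensorProduct.induction_on with
    | zero => simp
    | add x x' hx hx' => rw [map_add, add_mul, mul_add, hx, hx', neg_add]
    | tmul w a =>
      induction y using TensorProduct.induction_on with
      | zero => simp
      | add y y' hy hy' => rw [map_add, add_mul, mul_add, hy, hy', neg_add]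
      | tmul w' a' =>
        simp only [ι', LinearMap.baseChange_tmul, Algebra.TensorProduct.tmul_mul_tmul]
        rw [← TensorProduct.tmul_neg, mul_comm w, eq_neg_of_add_eq_zero_left
          (ExteriorAlgebra.ι_add_mul_swap a a')]
  have hcT (φ : Ω →ₗ[E] E) (δ : Ω ⊗[E] ExteriorAlgebra E V) :
      contr φ (T δ) = ExteriorAlgebra.map F (contr φ δ) := by
    induction δ using TensorProduct.induction_on with
    | zero => simp
    | tmul w a => simp [T, contr_tmul]
    | add x y hx hy => simp only [map_add, hx, hy]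
  have key := tate_closed (LinearMap.range ι') hanti T ε c hc hc' _ hq (by
      rintro _ ⟨v, rfl⟩
      have := Submodule.mem_map_of_mem (f := ι') (hspan (Submodule.mem_top (x := v)))
      rw [Submodule.map_span] at this
      refine Submodule.span_mono ?_ this
      rintro _ ⟨w, ⟨a, ha⟩, rfl⟩
      exact ⟨⟨w, rfl⟩, a, by rw [hTι, ha, map_smul]⟩)
    (W.baseChange Ω) (fun δ hδ hTδ => mem_of_contr W fun φ => by
      rw [← hU, ← baseChange_pow'] at hδ
      refine hW _ (contr_mem φ _ hδ) ?_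
      rw [← hcT, hTδ, algebraMap_smul, map_smul]) i n hrel (γ := 1 ⊗ₜ γ)
    (by rw [← hU, ← baseChange_pow']; exact Submodule.tmul_mem_baseChange_of_mem _ hγ)
    (by
      have h1 : ∀ m : ℕ, (T.toLinearMap ^ m) (1 ⊗ₜ γ) =
          1 ⊗ₜ ((ExteriorAlgebra.map F).toLinearMap ^ m) γ := by
        intro m
        induction m with
        | zero => simp
        | succ m ih => rw [pow_succ', pow_succ', Module.End.mul_apply, ih]; simp [T]
      rw [h1, hT, ← map_pow, algebraMap_smul, TensorProduct.tmul_smul])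
  rw [← baseChange_pow'] at key
  obtain ⟨φ, hφ⟩ : ∃ φ : Ω →ₗ[E] E, φ 1 ≠ 0 := by
    by_contra h
    push Not at h
    exact one_ne_zero ((Module.forall_dual_apply_eq_zero_iff E (1 : Ω)).1 h)
  have := contr_mem φ _ key
  rw [contr_tmul] at this
  exact (Submodule.smul_mem_iff _ hφ).1 this

end Main

end Pool.Agent.P.MP_7b53ad_ag
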