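import Mathlib

/-! The relation lattice of a weighted CM type of prime power dimension. -/

namespace Pool.Agent.P.MP_7b53ad_ag

open Finset

variable {G R : Type*} [Group G] [Finite G] [Fintype R] [DecidableEq R] [MulAction G R]

omit [DecidableEq R] in
lemma dvd_card_orbit [MulAction.IsPretransitive G R] {r : ℕ} [Fact r.Prime] (P : Sylow r G)
    (a : R) {j : ℕ} (hj : r ^ j ∣ Fintype.card R) :
    r ^ j ∣ Nat.card (MulAction.orbit (P : Subgroup G) a) := by
  have h1 : (MulAction.stabilizer G a).index = Fintype.card R := by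
    rw [MulAction.index_stabilizer_of_transitive, Nat.card_eq_fintype_card]
  have h2 : (MulAction.stabilizer (P : Subgroup G) a).index =
      Nat.card (MulAction.orbit (P : Subgroup G) a) := by
    rw [MulAction.index_stabilizer, Nat.card_coe_set_eq]
  have h3 : MulAction.stabilizer (P : Subgroup G) a =
      (MulAction.stabilizer G a).subgroupOf (P : Subgroup G) := by
    ext g; simp [Subgroup.mem_subgroupOf, Subgroup.smul_def]
  have h4 : ((MulAction.stabilizer G a) ⊓ (P : Subgroup G)).index =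
      Nat.card (MulAction.orbit (P : Subgroup G) a) * (P : Subgroup G).index := by
    rw [← h2, h3, ← Subgroup.relIndex_mul_index (inf_le_right), Subgroup.inf_relIndex_right]
    rfl
  have h5 : Fintype.card R ∣
      Nat.card (MulAction.orbit (P : Subgroup G) a) * (P : Subgroup G).index := by
    rw [← h4, ← h1]; exact Subgroup.index_dvd_of_le inf_le_left
  have h6 : Nat.Coprime (r ^ j) (P : Subgroup G).index :=
    ((Fact.out : r.Prime).coprime_iff_not_dvd.2 P.not_dvd_index).pow_left j
  exact h6.dvd_of_dvd_mul_right (hj.trans h5)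

/-- odd integer functions orthogonal to all translates of `n` -/
def InL (G : Type*) [Group G] [MulAction G R] (c : R → R) (n u : R → ℤ) : Prop :=
  (∀ a, u (c a) = -u a) ∧ ∀ σ : G, ∑ a, u a * n (σ • a) = 0

omit [Finite G] [DecidableEq R] in
lemma exists_not_dvd {r : ℕ} (hr : r.Prime) {c : R → R} {n : R → ℤ} (N : ℕ) :
    ∀ u : R → ℤ, ∑ a, (u a).natAbs ≤ N → InL G c n u → u ≠ 0 →
      ∃ v, InL G c n v ∧ ∃ a, ¬ (r : ℤ) ∣ v a := by
  induction N with
  | zero =>
    intro u hu _ h0
    exfalso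
    apply h0
    funext a
    have := (sum_eq_zero_iff.1 (Nat.le_zero.1 hu)) a (mem_univ a)
    simpa using this
  | succ N ih =>
    intro u hu hL h0
    by_cases h : ∃ a, ¬ (r : ℤ) ∣ u a
    · exact ⟨u, hL, h⟩
    · push Not at h
      choose v hv using h
      have hr0 : (r : ℤ) ≠ 0 := by exact_mod_cast hr.ne_zero
      refine ih v ?_ ⟨fun a => ?_, fun σ => ?_⟩ ?_
      · have h1 : ∑ a, (u a).natAbs = r * ∑ a, (v a).natAbs := by
          rw [mul_sum]; refine sum_congr rfl fun a _ => ?_
          rw [hv a, Int.natAbs_mul, Int.natAbs_natCast]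
        have h2 := hr.two_le
        rw [h1] at hu
        nlinarith
      · apply mul_left_cancel₀ hr0
        rw [← hv, hL.1, hv a]; ring
      · apply mul_left_cancel₀ hr0
        rw [mul_zero, ← hL.2 σ, mul_sum]
        refine sum_congr rfl fun a _ => by rw [hv a]; ring
      · rintro rfl
        apply h0
        funext a
        simpa using hv a

/-- reduction of the relation lattice modulo `r` -/
def Lbar (G : Type*) [Group G] [MulAction G R] (r : ℕ) (c : R → R) (n : R → ℤ) :
    AddSubgroup (R → ZMod r) where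
  carrier := {w | ∃ u, InL G c n u ∧ w = fun a => (u a : ZMod r)}
  zero_mem' := ⟨0, ⟨by simp, by simp⟩, by funext a; simp⟩
  add_mem' := by
    rintro _ _ ⟨u, hu, rfl⟩ ⟨v, hv, rfl⟩
    refine ⟨u + v, ⟨fun a => ?_, fun σ => ?_⟩, by funext a; simp⟩
    · simp only [Pi.add_apply, hu.1, hv.1]; ring
    · simp only [Pi.add_apply, add_mul, sum_add_distrib, hu.2, hv.2, add_zero]
  neg_mem' := by
    rintro _ ⟨u, hu, rfl⟩
    refine ⟨-u, ⟨fun a => ?_, fun σ => ?_⟩, by funext a; simp⟩
    · simp only [Pi.neg_apply, hu.1]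
    · simp only [Pi.neg_apply, neg_mul, sum_neg_distrib, hu.2, neg_zero]

omit [Finite G] [DecidableEq R] in
lemma smul_mem_Lbar {r : ℕ} {c : R → R} {n : R → ℤ} (hcG : ∀ (σ : G) a, c (σ • a) = σ • c a)
    (σ : G) {w : R → ZMod r} (hw : w ∈ Lbar G r c n) : (fun a => w (σ⁻¹ • a)) ∈ Lbar G r c n := by
  obtain ⟨u, hu, rfl⟩ := hw
  refine ⟨fun a => u (σ⁻¹ • a), ⟨fun a => ?_, fun τ => ?_⟩, rfl⟩
  · simp only [← hcG, hu.1]
  · rw [← hu.2 (τ * σ), ← Equiv.sum_comp (MulAction.toPerm σ)]
    simp [mul_smul]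

/-- the action on the reduced lattice -/
@[reducible] def actLbar {r : ℕ} {c : R → R} {n : R → ℤ}
    (hcG : ∀ (σ : G) a, c (σ • a) = σ • c a) (H : Subgroup G) : MulAction H (Lbar G r c n) where
  smul σ w := ⟨fun a => w.1 ((σ : G)⁻¹ • a), smul_mem_Lbar hcG σ w.2⟩
  one_smul w := by
    apply Subtype.ext; funext a
    change w.1 (((1 : H) : G)⁻¹ • a) = w.1 a
    simp
  mul_smul σ τ w := by
    apply Subtype.ext; funext a
    change w.1 (((σ * τ : H) : G)⁻¹ • a) = w.1 ((τ : G)⁻¹ • (σ : G)⁻¹ • a)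
    simp [mul_smul]

omit [Finite G] in
lemma half_sum {c : R → R} (hc : ∀ a, c (c a) = a) {f : R → ℤ} (hf : ∀ a, f (c a) = f a)
    {Φ : Finset R} (hΦ : ∀ a, a ∈ Φ ↔ c a ∉ Φ) : ∑ a, f a = 2 * ∑ a ∈ Φ, f a := by
  rw [← sum_add_sum_compl Φ, two_mul]
  congr 1
  refine sum_bij' (fun a _ => c a) (fun a _ => c a) ?_ ?_ ?_ ?_ ?_
  · intro a ha
    rw [hΦ, hc]; exact mem_compl.1 ha
  · intro a ha
    exact mem_compl.2 ((hΦ a).1 ha)
  · intro a _; exact hc a
  · intro a _; exact hc a
  · intro a _; exact (hf a).symm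

theorem lattice_zero [MulAction.IsPretransitive G R] {r k : ℕ} (hr : r.Prime)
    (hcard : Fintype.card R = 2 * r ^ k) {c : R → R} (hc : ∀ a, c (c a) = a)
    (hc' : ∀ a, c a ≠ a) (hcG : ∀ (σ : G) a, c (σ • a) = σ • c a) {n : R → ℤ}
    (hn : ∀ a, n (c a) = -n a)
    (hΦ : ∀ Φ : Finset R, (∀ a, a ∈ Φ ↔ c a ∉ Φ) → ¬ (r : ℤ) ∣ ∑ a ∈ Φ, n a)
    {u : R → ℤ} (hu : InL G c n u) : u = 0 := by
  by_contra h0
  have : Fact r.Prime := ⟨hr⟩
  obtain ⟨v, hv, a₁, ha₁⟩ := exists_not_dvd hr _ u le_rfl hu h0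
  obtain ⟨P⟩ : Nonempty (Sylow r G) := inferInstance
  let _ := actLbar (r := r) (n := n) hcG (P : Subgroup G)
  have hdvd : r ∣ Nat.card (Lbar G r c n) := by
    let w : Lbar G r c n := ⟨fun a => (v a : ZMod r), v, hv, rfl⟩
    have hw : w ≠ 0 := fun h => ha₁ ((ZMod.intCast_zmod_eq_zero_iff_dvd _ _).1
      (congrFun (congrArg Subtype.val h) a₁))
    have : addOrderOf w = r := addOrderOf_eq_prime (by
      apply Subtype.ext; funext a; simp) hw
    have h := addOrderOf_dvd_natCard w
    rwa [this] at h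
  have h0fix : (0 : Lbar G r c n) ∈ MulAction.fixedPoints (P : Subgroup G) (Lbar G r c n) :=
    fun _ => rfl
  obtain ⟨⟨_, x, hx, rfl⟩, hfix, hne⟩ :=
    P.isPGroup'.exists_fixed_point_of_prime_dvd_card_of_fixed_point _ hdvd h0fix
  have hinv : ∀ (σ : (P : Subgroup G)) a, (x (σ • a) : ZMod r) = x a := fun σ a => by
    have := congrFun (congrArg Subtype.val (hfix σ⁻¹)) a
    change (x ((((σ⁻¹ : (P : Subgroup G)) : G))⁻¹ • a) : ZMod r) = x a at this
    simpa [Subgroup.smul_def] using this
  obtain ⟨a₀, ha₀⟩ : ∃ a, (x a : ZMod r) ≠ 0 := by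
    by_contra h
    push Not at h
    exact hne (Subtype.ext (funext fun a => (h a).symm))
  have hodd : ∀ a, (x (c a) : ZMod r) = -x a := fun a => by rw [hx.1]; simp
  -- every value is `± x a₀`
  have hval : ∀ a, (x a : ZMod r) = x a₀ ∨ (x (c a) : ZMod r) = x a₀ := by
    classical
    let Z : Finset R := univ.filter fun a => (x a : ZMod r) = x a₀
    have hsub : MulAction.orbit (P : Subgroup G) a₀ ⊆ (Z : Set R) := by
      rintro _ ⟨σ, rfl⟩
      simpa [Z] using hinv σ a₀
    have hle : Nat.card (MulAction.orbit (P : Subgroup G) a₀) ≤ Z.card := by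
      rw [Nat.card_coe_set_eq, ← Set.ncard_coe_finset]
      exact Set.ncard_le_ncard hsub (Set.toFinite _)
    have hpos : 0 < Nat.card (MulAction.orbit (P : Subgroup G) a₀) := by
      have : Nonempty (MulAction.orbit (P : Subgroup G) a₀) := ⟨⟨a₀, MulAction.mem_orbit_self _⟩⟩
      exact Nat.card_pos
    by_cases h2 : r = 2
    · have h3 : r ^ (k + 1) ∣ Fintype.card R := by rw [hcard, h2, pow_succ']
      have h4 := Nat.le_of_dvd hpos (dvd_card_orbit P a₀ h3)
      have h5 : Z = univ := by
        apply eq_univ_of_card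
        apply le_antisymm (card_le_univ _)
        rw [hcard]
        calc 2 * r ^ k = r ^ (k + 1) := by rw [h2, pow_succ']
          _ ≤ _ := h4.trans hle
      intro a
      left
      have : a ∈ Z := h5 ▸ mem_univ a
      simpa [Z] using this
    · have h3 : r ^ k ∣ Fintype.card R := by rw [hcard]; exact dvd_mul_left _ _
      have h4 := (Nat.le_of_dvd hpos (dvd_card_orbit P a₀ h3)).trans hle
      have hinj : Function.Injective c := Function.LeftInverse.injective hc
      have hdisj : Disjoint Z (Z.image c) := by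
        rw [disjoint_left]
        intro a ha hb'
        obtain ⟨b, hb, rfl⟩ := mem_image.1 hb'
        simp only [Z, mem_filter, mem_univ, true_and] at ha hb
        rw [hodd, hb] at ha
        have h5 : (2 : ZMod r) * x a₀ = 0 := by linear_combination -ha
        rcases mul_eq_zero.1 h5 with h6 | h6
        · have : ((2 : ℕ) : ZMod r) = 0 := by exact_mod_cast h6
          exact h2 ((Nat.prime_dvd_prime_iff_eq hr Nat.prime_two).1
            ((ZMod.natCast_eq_zero_iff _ _).1 this))
        · exact ha₀ h6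
      have h5 : Z ∪ Z.image c = univ := by
        apply eq_univ_of_card
        apply le_antisymm (card_le_univ _)
        rw [card_union_of_disjoint hdisj, card_image_of_injective _ hinj, hcard]
        omega
      intro a
      have : a ∈ Z ∪ Z.image c := h5 ▸ mem_univ a
      rcases mem_union.1 this with h | h
      · left; simpa [Z] using h
      · right
        obtain ⟨b, hb, rfl⟩ := mem_image.1 h
        rw [hc]; simpa [Z] using hb
  let e := Fintype.equivFin R
  let Φ : Finset R := univ.filter fun a =>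
    (x a : ZMod r) = x a₀ ∧ ((x (c a) : ZMod r) = x a₀ → e a < e (c a))
  have hΦ' : ∀ a, a ∈ Φ ↔ c a ∉ Φ := fun a => by
    have hne : e (c a) ≠ e a := fun h => hc' a (e.injective h)
    simp only [Φ, mem_filter, mem_univ, true_and, hc]
    rcases hval a with h | h
    · by_cases h' : (x (c a) : ZMod r) = x a₀
      · simp only [h, h', true_and, forall_const, not_lt]
        exact ⟨le_of_lt, fun h => lt_of_le_of_ne h hne.symm⟩
      · simp [h, h']
    · by_cases h' : (x a : ZMod r) = x a₀
      · simp only [h, h', true_and, forall_const, not_lt]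
        exact ⟨le_of_lt, fun h => lt_of_le_of_ne h hne.symm⟩
      · simp [h, h']
  have hs := half_sum hc (f := fun a => x a * n a) (fun a => by rw [hx.1, hn]; ring) hΦ'
  have h1 := hx.2 1
  simp only [one_smul] at h1
  rw [h1] at hs
  have h2 : ∑ a ∈ Φ, x a * n a = 0 := by omega
  have h3 : (x a₀ : ZMod r) * ((∑ a ∈ Φ, n a : ℤ) : ZMod r) = 0 := by
    have := congrArg (Int.cast : ℤ → ZMod r) h2
    push_cast at this ⊢
    rw [mul_sum, ← this]
    refine sum_congr rfl fun a ha => ?_
    rw [(mem_filter.1 ha).2.1]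
  exact hΦ Φ hΦ' ((ZMod.intCast_zmod_eq_zero_iff_dvd _ _).1 ((mul_eq_zero.1 h3).resolve_left ha₀))

end Pool.Agent.P.MP_7b53ad_ag
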