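import Pool.Agent.P.MP_7b53ad_ag.Group
import Pool.Agent.P.MP_7b53ad_ag.Ext

/-! Multiplicative relations between conjugates of a Weil number. -/

namespace Pool.Agent.P.MP_7b53ad_ag

open Polynomial Finset

variable {K : Type*} [Field K] [Algebra ℚ K]

lemma aeval_map_hom {L : Type*} [Field L] [Algebra ℚ L] (j : K →+* L) (m : ℚ[X]) (x : K) :
    aeval (j x) m = j (aeval x m) :=
  aeval_algHom_apply j.toRatAlgHom x m

lemma hom_mem_rootSet {L : Type*} [Field L] [Algebra ℚ L] (j : K →+* L) {m : ℚ[X]} {x : K} :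
    j x ∈ m.rootSet L ↔ x ∈ m.rootSet K := by
  rw [mem_rootSet, mem_rootSet, aeval_map_hom, map_eq_zero]

lemma exists_hom_eq {L : Type*} [Field L] [Algebra ℚ L] (j : K →+* L) {m : ℚ[X]}
    (hs : (m.map (algebraMap ℚ K)).Splits) {y : L} (hy : y ∈ m.rootSet L) :
    ∃ x : m.rootSet K, j x = y := by
  rw [← hs.image_rootSet j.toRatAlgHom] at hy
  obtain ⟨x, hx, rfl⟩ := hy
  exact ⟨⟨x, hx⟩, rfl⟩

lemma conj_mem (j : K →+* ℂ) {m : ℚ[X]} {q : ℕ} (hq : q ≠ 0)
    (hW : ∀ z ∈ m.rootSet ℂ, Complex.normSq z = q) (a : m.rootSet K) :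
    (a : K) ≠ 0 ∧ (q : K) / a ∈ m.rootSet K := by
  have h1 := hW _ ((hom_mem_rootSet j).2 a.2)
  have h0 : j a ≠ 0 := by
    intro h
    rw [h, map_zero] at h1
    exact hq (by exact_mod_cast h1.symm)
  refine ⟨fun h => h0 (by rw [h, map_zero]), (hom_mem_rootSet j).1 ?_⟩
  have h2 : j ((q : K) / a) = starRingEnd ℂ (j a) := by
    rw [map_div₀, map_natCast, div_eq_iff h0, mul_comm, Complex.mul_conj, h1]
    simp
  rw [h2]
  exact (hom_mem_rootSet (starRingEnd ℂ)).2 ((hom_mem_rootSet j).2 a.2)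

lemma pretrans [Normal ℚ K] {m : ℚ[X]} (hirr : Irreducible m) :
    MulAction.IsPretransitive (K ≃ₐ[ℚ] K) (m.rootSet K) := by
  refine ⟨fun x y ↦ ?_⟩
  have hx := minpoly.eq_of_irreducible hirr (mem_rootSet.mp x.2).2
  have hy := minpoly.eq_of_irreducible hirr (mem_rootSet.mp y.2).2
  obtain ⟨g, hg⟩ := (Normal.minpoly_eq_iff_mem_orbit K).mp (hy.symm.trans hx)
  exact ⟨g, Subtype.ext hg⟩

lemma sum_count {R M : Type*} [Fintype R] [DecidableEq R] [Semiring M] (l : List R) (f : R → M) :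
    ∑ a, (l.count a : M) * f a = (l.map f).sum := by
  induction l with
  | nil => simp
  | cons b l ih =>
    simp only [List.count_cons, beq_iff_eq, Nat.cast_add, Nat.cast_ite, Nat.cast_one,
      Nat.cast_zero, add_mul, sum_add_distrib, ih, List.map_cons, List.sum_cons, ite_mul, one_mul,
      zero_mul, sum_ite_eq, mem_univ, if_true]
    rw [add_comm]

lemma logb_norm_prod {L R : Type*} [NormedField L] (b : ℝ) (f : R → L) (hf : ∀ a, f a ≠ 0)
    (l : List R) : Real.logb b ‖(l.map f).prod‖ = (l.map fun a => Real.logb b ‖f a‖).sum ∧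
      (l.map f).prod ≠ 0 := by
  induction l with
  | nil => simp
  | cons a l ih =>
    simp only [List.map_cons, List.prod_cons, List.sum_cons, norm_mul]
    exact ⟨by rw [Real.logb_mul (norm_ne_zero_iff.2 (hf a)) (norm_ne_zero_iff.2 ih.2), ih.1],
      mul_ne_zero (hf a) ih.2⟩

/-- From the vanishing of the relation lattice to the multiplicities in a relation. -/
theorem count_symm [FiniteDimensional ℚ K] {m : ℚ[X]} [DecidableEq (m.rootSet K)] {q : ℕ}
    {L : Type*} [NormedField L] (j : K →+* L) (hq0 : (q : L) ≠ 0) (hq1 : ‖(q : L)‖ ≠ 1)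
    (c : m.rootSet K → m.rootSet K) (hcc : ∀ a, c (c a) = a)
    (hc : ∀ a : m.rootSet K, (a : K) * c a = q) (N : ℝ) (n : m.rootSet K → ℤ)
    (hn : ∀ a, (n a : ℝ) = N * (1 - 2 * Real.logb ‖(q : L)‖ ‖j a‖))
    (hL : (∀ (σ : K ≃ₐ[ℚ] K) a, c (σ • a) = σ • c a) → (∀ a, n (c a) = -n a) →
      ∀ u, InL (K ≃ₐ[ℚ] K) c n u → u = 0)
    (i e : ℕ) (he : 0 < e) (l : List (m.rootSet K)) (hl : l.length = 2 * i)
    (hrel : (l.map Subtype.val).prod ^ e = (q : K) ^ (i * e)) (a : m.rootSet K) :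
    l.count a = l.count (c a) := by
  have hb0 : 0 < ‖(q : L)‖ := norm_pos_iff.2 hq0
  have hne (a : m.rootSet K) : j a ≠ 0 := by
    intro h
    apply hq0
    rw [← map_natCast j, ← hc a, map_mul, h, zero_mul]
  have hodd (a : m.rootSet K) : n (c a) = -n a := by
    have h1 : Real.logb ‖(q : L)‖ ‖j a‖ + Real.logb ‖(q : L)‖ ‖j (c a)‖ = 1 := by
      rw [← Real.logb_mul (norm_ne_zero_iff.2 (hne a)) (norm_ne_zero_iff.2 (hne _)), ← norm_mul,
        ← map_mul, hc, map_natCast, Real.logb_self_eq_one_iff]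
      exact ⟨hb0.ne', hq1, by linarith⟩
    have : (n (c a) : ℝ) = -n a := by rw [hn, hn]; linear_combination (-2 * N : ℝ) * h1
    exact_mod_cast this
  have hcG (σ : K ≃ₐ[ℚ] K) (a : m.rootSet K) : c (σ • a) = σ • c a := by
    apply Subtype.ext
    have h0 : ((σ • a : m.rootSet K) : K) ≠ 0 := fun h => hne _ (by rw [h, map_zero])
    apply mul_left_cancel₀ h0
    rw [hc, rootSet.coe_smul, rootSet.coe_smul, AlgEquiv.smul_def, AlgEquiv.smul_def, ← map_mul,
      hc, map_natCast]
  have hsum (σ : K ≃ₐ[ℚ] K) : ∑ b, (l.count b : ℤ) * n (σ • b) = 0 := by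
    have h1 : (l.map fun b => j ((σ • b : m.rootSet K) : K)).prod ^ e = (q : L) ^ (i * e) := by
      have := congrArg (fun x => j (σ x)) hrel
      simp only [map_pow, map_natCast, map_list_prod, List.map_map] at this
      rw [← this]
      rfl
    have h2 := (logb_norm_prod ‖(q : L)‖ (fun b => j ((σ • b : m.rootSet K) : K))
      (fun b => hne _) l).1
    have h3 := congrArg (fun x => Real.logb ‖(q : L)‖ ‖x‖) h1
    simp only [norm_pow, Real.logb_pow] at h3
    rw [h2, (Real.logb_self_eq_one_iff.2 ⟨hb0.ne', hq1, by linarith⟩), ← sum_count] at h3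
    have h4 : ∑ b, (l.count b : ℝ) * Real.logb ‖(q : L)‖ ‖j ((σ • b : m.rootSet K) : K)‖ = i := by
      have he' : (e : ℝ) ≠ 0 := by exact_mod_cast he.ne'
      apply mul_left_cancel₀ he'
      rw [h3]; push_cast; ring
    have h5 : ∑ b, (l.count b : ℝ) * 1 = 2 * i := by
      rw [sum_count]; simp [hl]
    have h6 : ∑ b, (l.count b : ℝ) * (n (σ • b) : ℝ) = 0 := by
      have : ∀ b, (l.count b : ℝ) * (n (σ • b) : ℝ) = N * ((l.count b : ℝ) * 1) -
          2 * N * ((l.count b : ℝ) * Real.logb ‖(q : L)‖ ‖j ((σ • b : m.rootSet K) : K)‖) :=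
        fun b => by rw [hn]; ring
      simp only [this, sum_sub_distrib, ← mul_sum, h4, h5]
      ring
    exact_mod_cast h6
  have hu := hL hcG hodd (fun b => (l.count b : ℤ) - l.count (c b)) ⟨fun b => by simp only [hcc]; ring,
    fun σ => by
      have h7 : ∑ b, (l.count (c b) : ℤ) * n (σ • b) = -∑ b, (l.count b : ℤ) * n (σ • b) := by
        rw [← Equiv.sum_comp (Function.Involutive.toPerm c hcc), ← sum_neg_distrib]
        refine sum_congr rfl fun b _ => ?_
        simp only [Function.Involutive.coe_toPerm, hcc]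
        rw [← hcG, hodd]; ring
      simp only [sub_mul, sum_sub_distrib, h7, hsum]; ring⟩
  have := congrFun hu a
  simp only [Pi.zero_apply] at this
  omega

lemma span_eigen {E Ω V : Type*} [Field E] [CharZero E] [Field Ω] [CharZero Ω] [Algebra E Ω]
    [IsAlgClosed Ω] [AddCommGroup V] [Module E V] [FiniteDimensional E V] (F : V →ₗ[E] V)
    {m : ℚ[X]} (hirr : Irreducible m) (hF : aeval F (m.map (algebraMap ℚ E)) = 0)
    (hs : (m.map (algebraMap ℚ K)).Splits) (j : K →+* Ω) :
    ⊤ ≤ Submodule.span Ω {v : TensorProduct E Ω V |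
      ∃ a : m.rootSet K, F.baseChange Ω v = j a • v} := by
  have h1 : aeval (F.baseChange Ω) (m.map (algebraMap ℚ Ω)) = 0 := by
    have h2 : m.map (algebraMap ℚ Ω) = (m.map (algebraMap ℚ E)).map (algebraMap E Ω) := by
      rw [Polynomial.map_map]; congr 1; exact Subsingleton.elim _ _
    rw [h2, aeval_map_algebraMap]
    have := aeval_algHom_apply (Module.End.baseChangeHom E Ω V) F (m.map (algebraMap ℚ E))
    rw [hF, map_zero] at this
    exact this
  have h3 := Module.End.isSemisimple_of_squarefree_aeval_eq_zero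
    (hirr.separable.map (f := algebraMap ℚ Ω)).squarefree h1
  rw [← h3.iSup_eigenspace_eq_top, iSup_le_iff]
  intro μ v hv
  by_cases h0 : v = 0
  · rw [h0]; exact Submodule.zero_mem _
  · have hv' := Module.End.mem_eigenspace_iff.1 hv
    have h4 := Module.End.aeval_apply_of_mem_apply_eq_smul (p := m.map (algebraMap ℚ Ω)) hv'
    rw [h1, LinearMap.zero_apply, eq_comm, smul_eq_zero, or_iff_left h0,
      eval_map_algebraMap] at h4
    obtain ⟨a, ha⟩ := exists_hom_eq j hs (mem_rootSet.2 ⟨hirr.ne_zero, h4⟩)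
    exact Submodule.subset_span ⟨a, by rw [ha, hv']⟩

lemma exists_split {k : Type} [Field k] (m : k[X]) :
    ∃ (K : Type) (_ : Field K) (_ : Algebra k K) (_ : Normal k K)
      (_ : FiniteDimensional k K), (m.map (algebraMap k K)).Splits :=
  ⟨m.SplittingField, _, _, Normal.of_isSplittingField m,
    IsSplittingField.finiteDimensional _ m, SplittingField.splits m⟩

end Pool.Agent.P.MP_7b53ad_ag
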